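import Mathlib

/-!
Comparison of two points of a projective space over extensions of `ℂ`: if the second one specializes
to the first one over `ℂ` and satisfies all rational equations of the first one, then both have the
same closure.
-/

set_option autoImplicit false

namespace Pool.Agent.H911.QR

open MvPolynomial

section hom

variable {R : Type} [CommRing R] {n : ℕ}

/-- homogenization with the coordinate `X b` -/
noncomputable def homb (b : Fin (n + 1)) (P : MvPolynomial (Fin (n + 1)) R) :
    MvPolynomial (Fin (n + 1)) R :=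
  ∑ e ∈ Finset.range (P.totalDegree + 1), X b ^ (P.totalDegree - e) * homogeneousComponent e P

theorem homb_hom (b : Fin (n + 1)) (P : MvPolynomial (Fin (n + 1)) R) :
    (homb b P).IsHomogeneous P.totalDegree := by
  refine IsHomogeneous.sum _ _ _ fun e he => ?_
  have h1 := ((isHomogeneous_X R b).pow (P.totalDegree - e)).mul
    (homogeneousComponent_isHomogeneous e P)
  have h2 : 1 * (P.totalDegree - e) + e = P.totalDegree := by
    have := Finset.mem_range.1 he
    omega
  rwa [h2] at h1

theorem homb_eval {A : Type} [CommRing A] [Algebra R A] {b : Fin (n + 1)} (x : Fin (n + 1) → A)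
    (hx : x b = 1) (P : MvPolynomial (Fin (n + 1)) R) : aeval x (homb b P) = aeval x P := by
  conv_rhs => rw [← sum_homogeneousComponent P]
  unfold homb
  rw [map_sum, map_sum]
  refine Finset.sum_congr rfl fun e _ => ?_
  rw [map_mul, map_pow, aeval_X, hx, one_pow, one_mul]

end hom

/-- the coordinates as elements of the algebra generated by them -/
noncomputable def hatc (R : Type) [CommRing R] {A : Type} [CommRing A] [Algebra R A] {ι : Type}
    (x : ι → A) : ι → Algebra.adjoin R (Set.range x) :=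
  fun i => ⟨x i, Algebra.subset_adjoin ⟨i, rfl⟩⟩

theorem hatc_adjoin (R : Type) [CommRing R] {A : Type} [CommRing A] [Algebra R A] {ι : Type}
    (x : ι → A) : Algebra.adjoin R (Set.range (hatc R x)) = ⊤ := by
  rw [eq_top_iff]
  rintro ⟨a, ha⟩ -
  have h1 : Algebra.adjoin R (Set.range x) =
      (Algebra.adjoin R (Set.range (hatc R x))).map (Algebra.adjoin R (Set.range x)).val := by
    rw [AlgHom.map_adjoin, ← Set.range_comp]
    rfl
  rw [h1] at ha
  obtain ⟨c, hc, hca⟩ := ha
  have h2 : c = ⟨a, by rw [h1]; exact ⟨c, hc, hca⟩⟩ := Subtype.ext hca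
  rw [← h2]
  exact hc

theorem hatc_aeval (R : Type) [CommRing R] {A : Type} [CommRing A] [Algebra R A] {ι : Type}
    (x : ι → A) (P : MvPolynomial ι R) : ((aeval (hatc R x) P : Algebra.adjoin R (Set.range x)) : A)
      = aeval x P := by
  have h1 : (Algebra.adjoin R (Set.range x)).val.comp (aeval (hatc R x)) = aeval x := by
    apply MvPolynomial.algHom_ext
    intro i
    rw [AlgHom.comp_apply, aeval_X, aeval_X]
    rfl
  rw [← h1]
  rfl

/-- a transcendence basis of coordinates -/
theorem exists_basis (R : Type) [Field R] {A : Type} [Field A] [Algebra R A] {ι : Type}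
    (x : ι → A) : ∃ (σ : Type) (f : σ → ι), Function.Injective f ∧
      IsTranscendenceBasis R (fun s => hatc R x (f s)) := by
  have h1 : Algebra.IsAlgebraic (Algebra.adjoin R (Set.range (hatc R x)))
      (Algebra.adjoin R (Set.range x)) := by
    rw [hatc_adjoin]
    constructor
    intro a
    exact isAlgebraic_algebraMap (⟨a, trivial⟩ : (⊤ : Subalgebra R (Algebra.adjoin R (Set.range x))))
  obtain ⟨t, ht, htb⟩ := exists_isTranscendenceBasis_subset (R := R)
    (A := Algebra.adjoin R (Set.range x)) (Set.range (hatc R x))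
  choose g hg using fun s : t => ht s.2
  refine ⟨t, g, ?_, ?_⟩
  · intro s s' h
    apply Subtype.ext
    rw [← hg s, ← hg s', h]
  · have h2 : (fun s => hatc R x (g s)) = (Subtype.val : t → _) := funext hg
    rw [h2]
    exact htb

theorem key_alg {L L' : Type} [Field L] [Algebra ℂ L] [Algebra ℚ L] [IsScalarTower ℚ ℂ L]
    [Field L'] [Algebra ℂ L'] [Algebra ℚ L'] [IsScalarTower ℚ ℂ L'] {n : ℕ}
    (y : Fin (n + 1) → L) (x : Fin (n + 1) → L')
    (hind : ∀ (σ : Type) (f : σ → Fin (n + 1)), AlgebraicIndependent ℚ (fun s => y (f s)) →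
      AlgebraicIndependent ℂ (fun s => y (f s)))
    (hC : ∀ P : MvPolynomial (Fin (n + 1)) ℂ, aeval x P = 0 → aeval y P = 0)
    (hQ : ∀ P : MvPolynomial (Fin (n + 1)) ℚ, aeval y P = 0 → aeval x P = 0)
    (P : MvPolynomial (Fin (n + 1)) ℂ) (hP : aeval y P = 0) : aeval x P = 0 := by
  -- a basis for the first point over the rational numbers
  obtain ⟨σ, f, hf, hfb⟩ := exists_basis ℚ y
  have hσ : Finite σ := Finite.of_injective f hf
  have h1 : AlgebraicIndependent ℚ (fun s => y (f s)) :=
    hfb.1.map' (f := (Algebra.adjoin ℚ (Set.range y)).val) Subtype.val_injective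
  have h2 := hind σ f h1
  have h3 : AlgebraicIndependent ℂ (fun s => x (f s)) := by
    rw [algebraicIndependent_iff] at h2 ⊢
    intro Q hQ0
    apply h2 Q
    have h4 : aeval x (rename f Q) = 0 := by
      rw [aeval_rename]
      exact hQ0
    have h5 := hC _ h4
    rw [aeval_rename] at h5
    exact h5
  -- the transcendence degree of the second point
  have h4 : Algebra.trdeg ℂ (Algebra.adjoin ℂ (Set.range x)) ≤ Cardinal.mk σ := by
    obtain ⟨τ, g, hg, hgb⟩ := exists_basis ℂ x
    rw [← hgb.cardinalMk_eq_trdeg]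
    have h5 : AlgebraicIndependent ℂ (fun s => x (g s)) :=
      hgb.1.map' (f := (Algebra.adjoin ℂ (Set.range x)).val) Subtype.val_injective
    have h6 : AlgebraicIndependent ℚ (fun s => x (g s)) :=
      h5.restrictScalars (algebraMap ℚ ℂ).injective
    have h7 : AlgebraicIndependent ℚ (fun s => hatc ℚ x (g s)) :=
      AlgebraicIndependent.of_comp (Algebra.adjoin ℚ (Set.range x)).val h6
    refine h7.cardinalMk_le_trdeg.trans ?_
    rw [hfb.cardinalMk_eq_trdeg]
    -- a surjection
    have h8 : RingHom.ker (aeval (hatc ℚ y) : MvPolynomial (Fin (n + 1)) ℚ →ₐ[ℚ] _) ≤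
        RingHom.ker (aeval (hatc ℚ x) : MvPolynomial (Fin (n + 1)) ℚ →ₐ[ℚ] _) := by
      intro Q hQ0
      rw [RingHom.mem_ker] at hQ0 ⊢
      apply Subtype.ext
      rw [hatc_aeval]
      apply hQ
      rw [← hatc_aeval, hQ0]
      rfl
    have hsur : Function.Surjective (aeval (hatc ℚ y) : MvPolynomial (Fin (n + 1)) ℚ →ₐ[ℚ]
        Algebra.adjoin ℚ (Set.range y)) := by
      rw [← AlgHom.range_eq_top, ← Algebra.adjoin_range_eq_range_aeval, hatc_adjoin]
    have hsur' : Function.Surjective (aeval (hatc ℚ x) : MvPolynomial (Fin (n + 1)) ℚ →ₐ[ℚ]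
        Algebra.adjoin ℚ (Set.range x)) := by
      rw [← AlgHom.range_eq_top, ← Algebra.adjoin_range_eq_range_aeval, hatc_adjoin]
    let ψ : Algebra.adjoin ℚ (Set.range y) →ₐ[ℚ] Algebra.adjoin ℚ (Set.range x) :=
      AlgHom.liftOfSurjective (aeval (hatc ℚ y)) hsur (aeval (hatc ℚ x)) h8
    have hψ : ∀ Q : MvPolynomial (Fin (n + 1)) ℚ,
        ψ (aeval (hatc ℚ y) Q) = aeval (hatc ℚ x) Q := by
      intro Q
      exact AlgHom.liftOfSurjective_apply (aeval (hatc ℚ y)) hsur (aeval (hatc ℚ x)) h8 Q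
    have hψs : Function.Surjective ψ := by
      intro a
      obtain ⟨Q, rfl⟩ := hsur' a
      exact ⟨_, hψ Q⟩
    exact trdeg_le_of_surjective ψ hψs
  have h5 : AlgebraicIndependent ℂ (fun s => hatc ℂ x (f s)) :=
    AlgebraicIndependent.of_comp (Algebra.adjoin ℂ (Set.range x)).val h3
  have h6 : IsTranscendenceBasis ℂ (fun s => hatc ℂ x (f s)) :=
    h5.isTranscendenceBasis_of_trdeg_le (h4.trans_lt (Cardinal.mk_lt_aleph0)) h4
  have h7 := h6.isAlgebraic
  by_contra hx0
  set g : Algebra.adjoin ℂ (Set.range x) := aeval (hatc ℂ x) P with hg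
  have hg0 : g ≠ 0 := by
    intro h
    apply hx0
    rw [← hatc_aeval, ← hg, h]
    rfl
  have h8 := Ideal.comap_ne_bot_of_algebraic_mem
    (R := Algebra.adjoin ℂ (Set.range fun s => hatc ℂ x (f s))) (I := Ideal.span {g}) hg0
    (Ideal.mem_span_singleton_self g) (h7.isAlgebraic g)
  obtain ⟨r, hr, hr0⟩ := Submodule.exists_mem_ne_zero_of_ne_bot h8
  rw [Ideal.mem_comap, Ideal.mem_span_singleton] at hr
  obtain ⟨h, hh⟩ := hr
  obtain ⟨r, hrr⟩ := r
  have hrr' : r ∈ (aeval fun s => hatc ℂ x (f s) : MvPolynomial σ ℂ →ₐ[ℂ] _).range := by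
    rw [← Algebra.adjoin_range_eq_range_aeval]
    exact hrr
  obtain ⟨P₀, hP₀⟩ := hrr'
  have hsur : Function.Surjective (aeval (hatc ℂ x) : MvPolynomial (Fin (n + 1)) ℂ →ₐ[ℂ]
      Algebra.adjoin ℂ (Set.range x)) := by
    rw [← AlgHom.range_eq_top, ← Algebra.adjoin_range_eq_range_aeval, hatc_adjoin]
  obtain ⟨H, rfl⟩ := hsur h
  have hh' : r = g * aeval (hatc ℂ x) H := hh
  have hP₀' : aeval (fun s => hatc ℂ x (f s)) P₀ = r := hP₀
  have h9 : aeval x (rename f P₀ - P * H) = 0 := by
    rw [← hatc_aeval, map_sub, map_mul, aeval_rename, ← hg, ← hh']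
    have : aeval (hatc ℂ x ∘ f) P₀ = r := hP₀'
    rw [this, sub_self]
    rfl
  have h10 := hC _ h9
  rw [map_sub, map_mul, hP, zero_mul, sub_zero, aeval_rename] at h10
  have h11 : P₀ = 0 := (algebraicIndependent_iff.1 h2) P₀ h10
  apply hr0
  apply Subtype.ext
  change r = 0
  rw [← hP₀', h11, map_zero]

end Pool.Agent.H911.QR
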