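import Pool.Graph.R_pool_sql_team_seeded_63374d34.N254.SQ.Geo
import Pool.Agent.H911.QR.Alg

/-!
The coordinates of the generic point of a variety defined over a number field: algebraic independence
over `ℚ` and over `ℂ` are the same.
-/

set_option autoImplicit false

namespace Pool.Agent.H911.QR

open MvPolynomial
open Pool.Agent.N254.SQ (eval₂_scale)

/-- apply a linear form to the coefficients -/
noncomputable def lamP {K : Type} [Field K] {E : Type} [Field E] [Algebra K E] {σ : Type}
    (lam : Module.Dual K E) (P : MvPolynomial σ E) : MvPolynomial σ K :=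
  ∑ m ∈ P.support, monomial m (lam (coeff m P))

theorem lamP_coeff {K : Type} [Field K] {E : Type} [Field E] [Algebra K E] {σ : Type}
    (lam : Module.Dual K E) (P : MvPolynomial σ E) (m : σ →₀ ℕ) :
    coeff m (lamP lam P) = lam (coeff m P) := by
  classical
  unfold lamP
  rw [coeff_sum]
  simp only [coeff_monomial]
  by_cases hm : m ∈ P.support
  · rw [Finset.sum_eq_single_of_mem m hm]
    · rw [if_pos rfl]
    · intro b _ hb
      rw [if_neg hb]
  · rw [Finset.sum_eq_zero]
    · rw [notMem_support_iff.1 hm, map_zero]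
    · intro b hb
      rw [if_neg]
      rintro rfl
      exact hm hb

theorem lamP_eval {K : Type} [Field K] {E : Type} [Field E] [Algebra K E] {σ : Type}
    (lam : Module.Dual K E) (P : MvPolynomial σ E) (a : σ → K) :
    eval a (lamP lam P) = lam (eval (fun s => algebraMap K E (a s)) P) := by
  unfold lamP
  rw [map_sum, eval_eq, map_sum]
  refine Finset.sum_congr rfl fun m _ => ?_
  rw [eval_monomial]
  have h1 : coeff m P * ∏ i ∈ m.support, (algebraMap K E (a i)) ^ m i =
      (∏ i ∈ m.support, a i ^ m i) • coeff m P := by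
    rw [Algebra.smul_def, map_prod, mul_comm]
    simp only [map_pow]
  rw [h1, map_smul, smul_eq_mul, mul_comm]
  rfl

theorem ind_of_generic {k : Type} [Field k] [Algebra k ℂ]
    (hk : ∀ a : k, IsAlgebraic ℚ (algebraMap k ℂ a)) {n : ℕ}
    (S : Set (MvPolynomial (Fin (n + 1)) k)) (hS : ∀ p ∈ S, ∃ e, p.IsHomogeneous e)
    {L : Type} [Field L] [Algebra ℂ L] [Algebra ℚ L] [IsScalarTower ℚ ℂ L]
    (y : Fin (n + 1) → L) (b : Fin (n + 1)) (hb : y b = 1)
    (hy : ∀ p ∈ S, aeval y (map (algebraMap k ℂ) p) = 0)
    (hall : ∀ G : MvPolynomial (Fin (n + 1)) ℂ, (∃ e, G.IsHomogeneous e) → aeval y G = 0 →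
      ∀ x : Fin (n + 1) → ℂ, (∀ p ∈ S, aeval x p = 0) → eval x G = 0)
    (σ : Type) (f : σ → Fin (n + 1)) (h : AlgebraicIndependent ℚ (fun s => y (f s))) :
    AlgebraicIndependent ℂ (fun s => y (f s)) := by
  obtain ⟨K, hK⟩ : ∃ K : IntermediateField ℚ ℂ, K = algebraicClosure ℚ ℂ := ⟨_, rfl⟩
  have h1 : IsAlgClosed K := by
    rw [hK]
    exact (algebraicClosure.isAlgClosure ℚ ℂ).isAlgClosed
  have h2 : Algebra.IsAlgebraic ℚ K := by
    rw [hK]
    exact algebraicClosure.isAlgebraic ℚ ℂ
  have hkK : ∀ a : k, algebraMap k ℂ a ∈ K := by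
    intro a
    rw [hK, mem_algebraicClosure_iff]
    exact hk a
  obtain ⟨i, hi⟩ : ∃ i : k →+* K, (algebraMap K ℂ).comp i = algebraMap k ℂ :=
    ⟨(algebraMap k ℂ).codRestrict K hkK, rfl⟩
  have hKL : algebraMap K L = (algebraMap ℂ L).comp (algebraMap K ℂ) :=
    IsScalarTower.algebraMap_eq K ℂ L
  -- a form vanishing at all points over `K` vanishes at the generic point
  have dens : ∀ G : MvPolynomial (Fin (n + 1)) K,
      (∀ x : Fin (n + 1) → K, (∀ p ∈ S, eval x (map i p) = 0) → eval x G = 0) →
      aeval y G = 0 := by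
    intro G hG
    have h3 : G ∈ vanishingIdeal K (zeroLocus K (Ideal.span (map i '' S))) := by
      intro x hx
      rw [mem_zeroLocus_iff] at hx
      have e : ∀ p : MvPolynomial (Fin (n + 1)) K, aeval x p = eval x p := fun p => by
        rw [← coe_aeval_eq_eval]
        rfl
      rw [e]
      apply hG x
      intro p hp
      rw [← e]
      exact hx _ (Ideal.subset_span ⟨p, hp, rfl⟩)
    rw [vanishingIdeal_zeroLocus_eq_radical] at h3
    obtain ⟨r, hr⟩ := h3
    have h4 : Ideal.span (map i '' S) ≤
        RingHom.ker (aeval y : MvPolynomial (Fin (n + 1)) K →ₐ[K] L) := by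
      rw [Ideal.span_le]
      rintro _ ⟨p, hp, rfl⟩
      change aeval y (map i p) = 0
      rw [aeval_def, eval₂_map, hKL, RingHom.comp_assoc, hi]
      have h5 := hy p hp
      rw [aeval_def, eval₂_map] at h5
      exact h5
    have h5 : aeval y (G ^ r) = 0 := h4 hr
    rw [map_pow] at h5
    exact eq_zero_of_pow_eq_zero h5
  have hK2 : AlgebraicIndependent K (fun s => y (f s)) := h.extendScalars K
  rw [algebraicIndependent_iff]
  intro P hP
  by_contra hP0
  obtain ⟨m, hm⟩ : ∃ m, coeff m P ≠ 0 := by
    by_contra hcon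
    push Not at hcon
    exact hP0 (MvPolynomial.ext _ _ fun m => by rw [hcon m, coeff_zero])
  obtain ⟨lam, hlam⟩ : ∃ lam : Module.Dual K ℂ, lam (coeff m P) ≠ 0 := by
    by_contra hcon
    push Not at hcon
    exact hm ((Module.forall_dual_apply_eq_zero_iff K _).1 hcon)
  have hG : aeval y (X b * homb b (rename f (lamP lam P))) = 0 := by
    apply dens
    intro x hx
    by_cases hxb : x b = 0
    · rw [map_mul, eval_X, hxb, zero_mul]
    · obtain ⟨x', hx'⟩ : ∃ x' : Fin (n + 1) → K, x' = (x b)⁻¹ • x := ⟨_, rfl⟩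
      have hx'b : x' b = 1 := by
        rw [hx', Pi.smul_apply, smul_eq_mul, inv_mul_cancel₀ hxb]
      have hxx : x = x b • x' := by
        rw [hx', smul_smul, mul_inv_cancel₀ hxb, one_smul]
      have hx'S : ∀ p ∈ S, eval x' (map i p) = 0 := by
        intro p hp
        obtain ⟨e, he⟩ := hS p hp
        have h3 := hx p hp
        rw [eval_map] at h3 ⊢
        rw [hx', eval₂_scale i he, h3, mul_zero]
      have h3 : eval (fun j => (algebraMap K ℂ) (x' j)) (homb b (rename f P)) = 0 := by
        refine hall _ ⟨_, homb_hom b _⟩ ?_ _ ?_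
        · rw [homb_eval y hb, aeval_rename]
          exact hP
        · intro p hp
          have h4 := hx'S p hp
          rw [eval_map] at h4
          have h5 : eval₂ ((algebraMap K ℂ).comp i) (fun j => (algebraMap K ℂ) (x' j)) p =
              (algebraMap K ℂ) (eval₂ i x' p) := by
            have := hom_eval₂ p i (algebraMap K ℂ) x'
            rw [this]
          rw [aeval_def, ← hi, h5, h4, map_zero]
      have h4 : eval (fun j => (algebraMap K ℂ) (x' j)) (rename f P) = 0 := by
        have h5 := homb_eval (R := ℂ) (A := ℂ) (b := b) (fun j => (algebraMap K ℂ) (x' j))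
          (by simp only [hx'b, map_one]) (rename f P)
        exact h5.symm.trans h3
      have h5 : eval x' (homb b (rename f (lamP lam P))) = 0 := by
        have h6 := homb_eval (R := K) (A := K) (b := b) x' hx'b (rename f (lamP lam P))
        refine h6.trans ?_
        change eval x' (rename f (lamP lam P)) = 0
        rw [eval_rename, lamP_eval]
        rw [eval_rename] at h4
        have h7 : eval (fun s => algebraMap K ℂ ((x' ∘ f) s)) P = 0 := h4
        rw [h7, map_zero]
      rw [map_mul]
      have h6 : eval x (homb b (rename f (lamP lam P))) = 0 := by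
        rw [hxx]
        have h7 := eval₂_scale (RingHom.id K) (homb_hom b (rename f (lamP lam P))) (x b) x'
        change eval (x b • x') _ = _ * eval x' _ at h7
        rw [h7, h5, mul_zero]
      rw [h6, mul_zero]
  rw [map_mul, aeval_X, hb, one_mul, homb_eval y hb, aeval_rename] at hG
  have h3 := (algebraicIndependent_iff.1 hK2) _ hG
  apply hlam
  rw [← lamP_coeff, h3, coeff_zero]

end Pool.Agent.H911.QR
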