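import Pool.Graph.R_pool_sql_team_seeded_63374d34.N254.SQ.Fin3
import Pool.Graph.R_pool_sql_team_seeded_63374d34.N254.SQ.StmR
import Pool.Graph.R_pool_sql_team_seeded_63374d34.N254.SQ.Key
import Pool.Graph.R_pool_sql_team_seeded_63374d34.N254.SQ.VerSurj
import Pool.Agent.H911.QR.Dens

/-!
The key step with rational equations: if the closed set `Z` in `Y = {A = 0}` has no component of
general type, where `Y` is a hypersurface over `ℚ` through the closure over `ℚ` of `v(X)`, and `X` is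
a variety of general type over a number field, then `v(X)` is not contained in `Z`.
-/

set_option autoImplicit false

namespace Pool.Agent.H911.QR

open MvPolynomial
open Pool.Agent.W602.GT (SubVar GeneralType coords)
open Pool.Agent.N254.SQ (IsForm Component FiniteOff GenericPoint SmoothOver powerFormOver Monomials
  veronese Mon ver ver_prop ver_smul ver_ne_zero powerSum lin coords_ver Good pull
  eval_pull pull_hom aeval_pull aeval_zero_of aeval_scale Eqs Gen Irr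
  t_comp Fm Idl key_sub sub_ver t_versurj eval₂_scale)

theorem map_val {n : ℕ} {Ω : Type} [Field Ω] [Algebra ℂ Ω] [Algebra ℚ Ω] [IsScalarTower ℚ ℂ Ω]
    (x : Fin (n + 1) → Ω) (P : MvPolynomial (Fin (n + 1)) ℚ) :
    aeval x (map (algebraMap ℚ ℂ) P) = aeval x P := by
  rw [aeval_def, eval₂_map, ← IsScalarTower.algebraMap_eq ℚ ℂ Ω]
  rfl

theorem key_form {k : Type} [Field k] [Algebra k ℂ]
    (hk : ∀ a : k, IsAlgebraic ℚ (algebraMap k ℂ a)) {n : ℕ}
    (S : Set (MvPolynomial (Fin (n + 1)) k)) (hS : ∀ p ∈ S, ∃ e, p.IsHomogeneous e)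
    {L L' : Type} [Field L] [Algebra ℂ L] [Field L'] [Algebra ℂ L']
    (y : Fin (n + 1) → L) (x : Fin (n + 1) → L') (b : Fin (n + 1)) (hyb : y b ≠ 0)
    (hxb : x b ≠ 0)
    (hy : ∀ p ∈ S, aeval y (map (algebraMap k ℂ) p) = 0)
    (hall : ∀ G : MvPolynomial (Fin (n + 1)) ℂ, (∃ e, G.IsHomogeneous e) → aeval y G = 0 →
      ∀ x : Fin (n + 1) → ℂ, (∀ p ∈ S, aeval x p = 0) → eval x G = 0)
    (hC : ∀ G : MvPolynomial (Fin (n + 1)) ℂ, IsForm G → aeval x G = 0 → aeval y G = 0)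
    (hQ : ∀ P : MvPolynomial (Fin (n + 1)) ℚ, (∃ e, P.IsHomogeneous e) →
      aeval y (map (algebraMap ℚ ℂ) P) = 0 → aeval x (map (algebraMap ℚ ℂ) P) = 0)
    (G : MvPolynomial (Fin (n + 1)) ℂ) (hG : IsForm G) (hyG : aeval y G = 0) :
    aeval x G = 0 := by
  let _ : Algebra ℚ L := ((algebraMap ℂ L).comp (algebraMap ℚ ℂ)).toAlgebra
  have _i : IsScalarTower ℚ ℂ L := IsScalarTower.of_algebraMap_eq' rfl
  let _ : Algebra ℚ L' := ((algebraMap ℂ L').comp (algebraMap ℚ ℂ)).toAlgebra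
  have _i : IsScalarTower ℚ ℂ L' := IsScalarTower.of_algebraMap_eq' rfl
  obtain ⟨y1, hy1⟩ : ∃ y1 : Fin (n + 1) → L, y1 = (y b)⁻¹ • y := ⟨_, rfl⟩
  obtain ⟨x1, hx1⟩ : ∃ x1 : Fin (n + 1) → L', x1 = (x b)⁻¹ • x := ⟨_, rfl⟩
  have hy1b : y1 b = 1 := by
    rw [hy1, Pi.smul_apply, smul_eq_mul, inv_mul_cancel₀ hyb]
  have hx1b : x1 b = 1 := by
    rw [hx1, Pi.smul_apply, smul_eq_mul, inv_mul_cancel₀ hxb]
  have fy : ∀ F : MvPolynomial (Fin (n + 1)) ℂ, IsForm F → (aeval y1 F = 0 ↔ aeval y F = 0) := by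
    intro F hF
    rw [hy1]
    exact aeval_zero_of hF (inv_ne_zero hyb) y
  have fx : ∀ F : MvPolynomial (Fin (n + 1)) ℂ, IsForm F → (aeval x1 F = 0 ↔ aeval x F = 0) := by
    intro F hF
    rw [hx1]
    exact aeval_zero_of hF (inv_ne_zero hxb) x
  rw [← fx G hG]
  refine key_alg y1 x1 ?_ ?_ ?_ G ((fy G hG).2 hyG)
  · intro σ f h
    refine ind_of_generic hk S hS y1 b hy1b ?_ ?_ σ f h
    · intro p hp
      obtain ⟨e, he⟩ := hS p hp
      rw [fy _ ⟨e, he.map _⟩]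
      exact hy p hp
    · intro F hF h1 x' hx'
      exact hall F hF ((fy F hF).1 h1) x' hx'
  · intro P hP
    have h1 : IsForm (homb b P) := ⟨_, homb_hom b P⟩
    rw [← homb_eval x1 hx1b, fx _ h1] at hP
    rw [← homb_eval y1 hy1b, fy _ h1]
    exact hC _ h1 hP
  · intro P hP
    have h1 : IsForm (map (algebraMap ℚ ℂ) (homb b P)) := ⟨_, (homb_hom b P).map _⟩
    rw [← homb_eval y1 hy1b, ← map_val, fy _ h1] at hP
    rw [← homb_eval x1 hx1b, ← map_val, fx _ h1]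
    exact hQ _ ⟨_, homb_hom b P⟩ hP

/-- KEY, with rational equations -/
theorem key_rat {n N d : ℕ} {m : Fin (N + 1) → Fin (n + 1) → ℕ} {A : MvPolynomial (Fin (N + 1)) ℂ}
    {k : Type} [Field k] [Algebra k ℂ] (hk : ∀ a : k, IsAlgebraic ℚ (algebraMap k ℂ a))
    (S : Set (MvPolynomial (Fin (n + 1)) k)) (hS : ∀ p ∈ S, ∃ e, p.IsHomogeneous e)
    {L : Type} [Field L] [Algebra ℂ L] {w : ℕ} {y : Fin (n + 1) → L} (hw : 1 ≤ w)
    (hgp : GenericPoint S L w y) (hgt : GeneralType ℂ L w)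
    (T : Set (MvPolynomial (Fin (n + 1)) ℚ))
    (hT : ∀ p ∈ T, aeval y (map (algebraMap ℚ ℂ) p) = 0)
    (hT2 : ∀ (Ω : Type) [Field Ω] [Algebra ℂ Ω] (x : Fin (n + 1) → Ω),
      (∀ p ∈ map (algebraMap ℚ ℂ) '' T, aeval x p = 0) →
      ∀ p : MvPolynomial (Fin (n + 1)) ℚ, (∃ e, p.IsHomogeneous e) →
        aeval y (map (algebraMap ℚ ℂ) p) = 0 → aeval x (map (algebraMap ℚ ℂ) p) = 0)
    (hg : Good n N d m (map (algebraMap ℚ ℂ) '' T) A)
    (I : MvPolynomial (Fin (N + 1)) ℂ → Prop) (hI : Idl I) (hIA : I A)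
    (hno : ∀ (L' : Type) [Field L'] [Algebra ℂ L'] (w' : ℕ) (y' : Fin (N + 1) → L'), 1 ≤ w' →
        SubVar (fun p : ({A} : Set _) => (p : MvPolynomial (Fin (N + 1)) ℂ)) L' w' y' →
        GeneralType ℂ L' w' → ¬ Component I y') :
    ∃ G, IsForm G ∧ I G ∧ aeval y (pull m G) ≠ 0 := by
  by_contra hcon
  push Not at hcon
  have hvan : ∀ G, Fm G → I G → aeval (ver m y) G = 0 := by
    intro G hG hIG
    rw [← aeval_pull]
    exact hcon G hG hIG
  have hsv : SubVar (fun p : (map (algebraMap ℚ ℂ) '' T : Set (MvPolynomial (Fin (n + 1)) ℂ)) =>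
      (p : MvPolynomial (Fin (n + 1)) ℂ)) L w y := by
    refine ⟨hgp.sub.ne, ?_, hgp.sub.gen, hgp.sub.dim⟩
    rintro ⟨_, ⟨p, hp, rfl⟩⟩
    exact hT p hp
  have hsv2 := sub_ver hg hsv
  rcases t_comp N I hI L w (ver m y) ⟨hsv2.ne, hsv2.gen, hsv2.dim⟩ hvan with
    ⟨H, hH, hH0, hHI⟩ | ⟨L', iF, iA, w', y', hgen, hw', hI', hle, ⟨G, hG, hG0, hG1⟩, hcomp⟩
  · exact hno L w (ver m y) hw hsv2 hgt ⟨hvan, H, hH, hH0, hHI⟩
  · have hsub := key_sub hgen (hI' A hg.homA hIA)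
    have hco : Component I y' := ⟨hI', hcomp⟩
    rcases hg.special L' w' y' hw' hsub with h | ⟨x, c, hx, hc, hxS, hyx⟩
    · exact hno L' w' y' hw' hsub h hco
    · apply hG1
      -- forms vanishing at `x` vanish at `y`
      have hC : ∀ F : MvPolynomial (Fin (n + 1)) ℂ, IsForm F → aeval x F = 0 → aeval y F = 0 := by
        rintro F ⟨e, he⟩ hF
        obtain ⟨G', hG', hGF⟩ := t_versurj n N d m hg.mon e (F ^ d) (by
          have h1 := he.pow d
          rwa [mul_comm] at h1)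
        have hGF' : pull m G' = F ^ d := hGF
        have h1 : aeval y' G' = 0 := by
          rw [hyx, aeval_zero_of ⟨e, hG'⟩ hc, ← aeval_pull, hGF', map_pow, hF,
            zero_pow (by have := hg.deg; omega)]
        have h2 := hle G' ⟨e, hG'⟩ h1
        rw [← aeval_pull, hGF', map_pow] at h2
        exact eq_zero_of_pow_eq_zero h2
      obtain ⟨b, hb⟩ : ∃ b, y b ≠ 0 := by
        by_contra h1
        push Not at h1
        exact hgp.sub.ne (funext h1)
      have hxb : x b ≠ 0 := by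
        intro h1
        apply hb
        have h2 := hC (X b) ⟨1, isHomogeneous_X ℂ b⟩ (by rw [aeval_X, h1])
        rwa [aeval_X] at h2
      rw [hyx, aeval_zero_of hG hc, ← aeval_pull]
      obtain ⟨e, he⟩ := hG
      refine key_form hk S hS y x b hb hxb (fun p hp => hgp.sub.mem ⟨p, hp⟩) hgp.all hC ?_
        (pull m G) ⟨d * e, pull_hom hg.mon he⟩ (by rw [aeval_pull]; exact hG0)
      intro P hP hyP
      exact hT2 L' x hxS P hP hyP

end Pool.Agent.H911.QR
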